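import Pool.Agent.helper53.BND.SpecL

/-!
# Project bnd (MP_376aaf_an), row bnd:LNZ: changing the logarithms by integers
-/

set_option autoImplicit false

open scoped Topology Matrix
open Filter Finset

namespace Pool.Agent.BND

open Pool.Agent.CZ Pool.Agent.PV

theorem LNZ_sum (l : Lv) (h : IsLv l) (lam : ℕ → ℝ → ℂ) (z : ℕ → ℤ) (w : List ℕ) (hw : ∀ v ∈ w, v < l.n) :
    (w.map fun v => lam v 0 + 2 * Real.pi * Complex.I * ((((l.W v false).map z).sum : ℤ) : ℂ)).sum =
      (w.map fun v => lam v 0).sum + 2 * Real.pi * Complex.I * (((w.map z).sum : ℤ) : ℂ) := by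
  induction w with
  | nil => simp
  | cons a w ih =>
    have ha : a < l.n := hw a (List.mem_cons_self ..)
    have ih' := ih fun v hv => hw v (List.mem_cons_of_mem _ hv)
    rw [List.map_cons, List.sum_cons, ih', List.map_cons, List.sum_cons, List.map_cons, List.sum_cons,
      h.vtx a ha false, List.map_cons, List.map_nil, List.sum_cons, List.sum_nil]
    push_cast
    ring

theorem LNZ : LNZ_stmt := by
  intro l hl lam nn hlog z
  refine ⟨fun e s => lam e s + 2 * Real.pi * Complex.I * ((((l.W e false).map z).sum : ℤ) : ℂ), ⟨?_, ?_, ?_, ?_⟩, ?_⟩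
  · intro e he
    exact (hlog.cts e he).add continuousOn_const
  · intro e he s
    change lam e s + _ = lam e 0 + _
    rw [hlog.vtx e he s]
  · intro e he
    change lam e 0 + _ = _
    rw [hlog.at0 e he]
    exact (LNZ_sum l hl lam z _ (hl.mem e he false)).symm
  · intro e he
    change lam e 1 + _ = _
    rw [hlog.at1 e he]
    rw [LNZ_sum l hl lam z _ (hl.mem e he true)]
    push_cast
    ring
  · intro e s
    change Complex.exp (lam e s + 2 * Real.pi * Complex.I * ((((l.W e false).map z).sum : ℤ) : ℂ)) = _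
    rw [Complex.exp_add]
    have h : Complex.exp (2 * Real.pi * Complex.I * ((((l.W e false).map z).sum : ℤ) : ℂ)) = 1 := by
      rw [mul_comm, Complex.exp_int_mul_two_pi_mul_I]
    rw [h, mul_one]

end Pool.Agent.BND
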