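import Pool.Agent.helper53.BND.SpecT

/-!
# Project bnd (MP_376aaf_an), row bnd:TIN: the limit state is invariant
-/

set_option autoImplicit false

open scoped Topology
open Finset Filter

namespace Pool.Agent.BND

open Pool.Agent.CZ Pool.Agent.PV Pool.Agent.PVH

theorem TIN (hTIV : TIV_stmt) (hTDN : TDN_stmt) (hTLB : TLB_stmt) : TIN_stmt := by
  intro B M hB α hα hαI x hx r hr φ hφ f
  -- the limit functional is bounded by the sup norm
  have hbd : ∀ (g g' : C(↥(XS B), ℝ)) (c : ℝ), (∀ y, |g y - g' y| ≤ c) → |φ g - φ g'| ≤ c := by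
    intro g g' c hc
    have h1 : Tendsto (fun m => |B.lev x r m g - B.lev x r m g'|) atTop (𝓝 |φ g - φ g'|) :=
      ((hφ g).sub (hφ g')).abs
    exact le_of_tendsto' h1 fun m => (hTLB B M x r hr m).2.2.2.2 g g' c hc
  -- functions of finite level
  have hfin : ∀ (k : ℕ) (F : Am → ℝ) (g : C(↥(XS B), ℝ)) (C : ℝ), (∀ y, g y = F (y.1 k)) →
      (∀ y, |g y| ≤ C) → φ (g.comp (α : C(↥(XS B), ↥(XS B)))) = φ g := by
    intro k F g C hg hC
    have h1 : Tendsto (fun d : ℕ => |B.lev x r (k + d) (g.comp (α : C(↥(XS B), ↥(XS B)))) -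
        B.lev x r (k + d) g|) atTop (𝓝 |φ (g.comp (α : C(↥(XS B), ↥(XS B)))) - φ g|) := by
      have ht : Tendsto (fun d : ℕ => k + d) atTop atTop := tendsto_atTop_mono (fun d => Nat.le_add_left d k) tendsto_id
      exact (((hφ _).comp ht).sub ((hφ g).comp ht)).abs
    have h2 : Tendsto (fun d : ℕ => 2 * C / (((k + d : ℕ) : ℝ) + 1)) atTop (𝓝 0) := by
      have ht : Tendsto (fun d : ℕ => k + d) atTop atTop := tendsto_atTop_mono (fun d => Nat.le_add_left d k) tendsto_id
      have h3 : Tendsto (fun d : ℕ => (((k + d : ℕ) : ℝ) + 1)) atTop atTop :=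
        tendsto_atTop_add_const_right _ _ (tendsto_natCast_atTop_atTop.comp ht)
      exact h3.const_div_atTop _
    have h4 := le_of_tendsto_of_tendsto' h1 h2 fun d => hTIV B M hB α hα hαI x hx r hr k F g C hg hC d
    have h5 := abs_nonpos_iff.1 h4
    linarith
  have key : ∀ ε : ℝ, 0 < ε → |φ (f.comp (α : C(↥(XS B), ↥(XS B)))) - φ f| ≤ 2 * ε := by
    intro ε hε
    obtain ⟨k, F, f', C, hC, hF, hFC, hf', hff'⟩ := hTDN B M hB f ε hε
    have e1 : φ (f'.comp (α : C(↥(XS B), ↥(XS B)))) = φ f' := by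
      refine hfin k F f' C hf' fun y => ?_
      rw [hf']
      exact hFC _ (y.2 k).1
    have e2 := hbd f f' ε hff'
    have e3 := hbd (f.comp (α : C(↥(XS B), ↥(XS B)))) (f'.comp (α : C(↥(XS B), ↥(XS B)))) ε
      fun y => hff' (α y)
    rw [abs_le] at e2 e3 ⊢
    constructor <;> linarith [e2.1, e2.2, e3.1, e3.2]
  by_contra hne
  have hpos : 0 < |φ (f.comp (α : C(↥(XS B), ↥(XS B)))) - φ f| := abs_pos.2 (sub_ne_zero.2 hne)
  have := key (|φ (f.comp (α : C(↥(XS B), ↥(XS B)))) - φ f| / 4) (by positivity)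
  linarith

end Pool.Agent.BND
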