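import Pool.Agent.helper77.BND.SpecY

/-!
# Project bnd (MP_376aaf_an), row bnd:YDE: the holonomy of the rotation loop
-/

set_option autoImplicit false

open scoped Topology Matrix
open Filter

namespace Pool.Agent.BND

open Pool.Agent.CZ Pool.Agent.PV

theorem YDE_rotR_cont (A : Type) [NormedRing A] [NormedAlgebra ℂ A] (ι : Type) [Fintype ι] [DecidableEq ι] :
    Continuous (rotR A ι) := by
  unfold rotR
  refine Continuous.matrix_fromBlocks ?_ ?_ ?_ ?_
  · exact (Complex.continuous_ofReal.comp (by fun_prop)).smul continuous_const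
  · exact ((Complex.continuous_ofReal.comp (by fun_prop)).smul continuous_const).neg
  · exact (Complex.continuous_ofReal.comp (by fun_prop)).smul continuous_const
  · exact (Complex.continuous_ofReal.comp (by fun_prop)).smul continuous_const

theorem YDE_rotW_cont {A : Type} [NormedRing A] [NormedAlgebra ℂ A] {ι : Type} [Fintype ι] [DecidableEq ι]
    (g g' : Matrix ι ι A) : Continuous (rotW g g') := by
  unfold rotW
  have h := YDE_rotR_cont A ι
  exact ((continuous_const.mul h).mul continuous_const).mul (h.comp continuous_neg)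

theorem YDE_rotV_cont {A : Type} [NormedRing A] [NormedAlgebra ℂ A] {ι : Type} [Fintype ι] [DecidableEq ι]
    (g g' : Matrix ι ι A) : Continuous (rotV g g') := by
  unfold rotV
  have h := YDE_rotR_cont A ι
  exact (((h.mul continuous_const).mul (h.comp continuous_neg))).mul continuous_const

theorem YDE (hYRV : YRV_stmt) (hK1B : K1B_stmt) (hK1M : K1M_stmt) : YDE_stmt := by
  intro B _ _ _ ι _ _ w E hEE hEL de hde
  obtain ⟨-, -, h3⟩ := hYRV B ι
  obtain ⟨hWV, hE0', hE1'⟩ := h3 (w : Matrix ι ι B) ((w⁻¹ : (Matrix ι ι B)ˣ) : Matrix ι ι B)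
    (Units.mul_inv w) (Units.inv_mul w)
  set W := rotW (w : Matrix ι ι B) ((w⁻¹ : (Matrix ι ι B)ˣ) : Matrix ι ι B) with hW
  set W' := rotV (w : Matrix ι ι B) ((w⁻¹ : (Matrix ι ι B)ˣ) : Matrix ι ι B) with hW'
  set P : Matrix (ι ⊕ ι) (ι ⊕ ι) B := Matrix.fromBlocks 1 0 0 0 with hP
  have hPP : P * P = P := by
    rw [hP, Matrix.fromBlocks_multiply]
    simp
  have hE : ∀ s : unitInterval, evM E ((s : ℝ) : UnitAddCircle) = W (s : ℝ) * P * W' (s : ℝ) := hEL
  have hE0 : evM E 0 = P := by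
    have h := hE 0
    rw [Set.Icc.coe_zero, QuotientAddGroup.mk_zero] at h
    rw [h]
    exact hE0'
  have hW0 : W 0 = 1 := by
    rw [hW, rotW]
    have h0 : rotR B ι 0 = 1 := by
      rw [rotR]
      simp
    rw [neg_zero, h0, mul_one, mul_one, Matrix.fromBlocks_multiply]
    simp
  have hR1 : rotR B ι 1 = Matrix.fromBlocks 0 (-1) 1 0 := by
    rw [rotR]
    simp
  have hR1' : rotR B ι (-1) = Matrix.fromBlocks 0 1 (-1) 0 := by
    rw [rotR]
    have e1 : Real.pi * (-1) / 2 = -(Real.pi / 2) := by ring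
    rw [e1, Real.cos_neg, Real.sin_neg, Real.cos_pi_div_two, Real.sin_pi_div_two]
    simp
  have hW1 : W 1 = Matrix.fromBlocks (w : Matrix ι ι B) 0 0 ((w⁻¹ : (Matrix ι ι B)ˣ) : Matrix ι ι B) := by
    rw [hW, rotW, hR1, hR1', Matrix.fromBlocks_multiply, Matrix.fromBlocks_multiply,
      Matrix.fromBlocks_multiply]
    simp
  have hW1P : W 1 * P = Matrix.fromBlocks (w : Matrix ι ι B) 0 0 0 := by
    rw [hW1, hP, Matrix.fromBlocks_multiply]
    simp
  have hc1 : Continuous fun s : unitInterval => W (s : ℝ) := (YDE_rotW_cont _ _).comp continuous_subtype_val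
  have hc2 : Continuous fun s : unitInterval => W' (s : ℝ) := (YDE_rotV_cont _ _).comp continuous_subtype_val
  set V : C(unitInterval, Matrix (ι ⊕ ι) (ι ⊕ ι) B) :=
    ⟨fun s => W (s : ℝ) * P, hc1.mul continuous_const⟩ with hV
  set V' : C(unitInterval, Matrix (ι ⊕ ι) (ι ⊕ ι) B) :=
    ⟨fun s => P * W' (s : ℝ), continuous_const.mul hc2⟩ with hV'
  have hHol : Hol E V V' := by
    refine ⟨?_, ?_, ?_, ?_, ?_⟩
    · rw [hE0]
      change W ((0 : unitInterval) : ℝ) * P = P
      rw [Set.Icc.coe_zero, hW0, one_mul]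
    · intro s
      rw [hE0]
      change P * W' (s : ℝ) * (W (s : ℝ) * P) = P
      have e : P * W' (s : ℝ) * (W (s : ℝ) * P) = P * (W' (s : ℝ) * W (s : ℝ)) * P := by
        simp only [mul_assoc]
      rw [e, (hWV s).2.1, mul_one, hPP]
    · intro s
      rw [hE]
      change W (s : ℝ) * P * (P * W' (s : ℝ)) = W (s : ℝ) * P * W' (s : ℝ)
      rw [← mul_assoc, mul_assoc (W (s : ℝ)), hPP]
    · intro s
      rw [hE0]
      change W (s : ℝ) * P * P = W (s : ℝ) * P
      rw [mul_assoc, hPP]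
    · intro s
      rw [hE0]
      change P * (P * W' (s : ℝ)) = P * W' (s : ℝ)
      rw [← mul_assoc, hPP]
  set g : (Matrix (ι ⊕ ι) (ι ⊕ ι) B)ˣ :=
    { val := Matrix.fromBlocks (w : Matrix ι ι B) 0 0 1
      inv := Matrix.fromBlocks ((w⁻¹ : (Matrix ι ι B)ˣ) : Matrix ι ι B) 0 0 1
      val_inv := by
        rw [Matrix.fromBlocks_multiply]
        simp
      inv_val := by
        rw [Matrix.fromBlocks_multiply]
        simp } with hg
  have hgv : (g : Matrix (ι ⊕ ι) (ι ⊕ ι) B) = Matrix.fromBlocks (w : Matrix ι ι B) 0 0 1 := rfl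
  have h1P : (1 : Matrix (ι ⊕ ι) (ι ⊕ ι) B) - P = Matrix.fromBlocks 0 0 0 1 := by
    rw [hP, ← Matrix.fromBlocks_one, sub_eq_iff_eq_add, Matrix.fromBlocks_add]
    simp
  have hgV : (g : Matrix (ι ⊕ ι) (ι ⊕ ι) B) = V 1 + (1 - evM E 0) := by
    rw [hE0, h1P, hgv]
    change _ = W ((1 : unitInterval) : ℝ) * P + _
    rw [Set.Icc.coe_one, hW1P, Matrix.fromBlocks_add]
    simp
  rw [hde _ E hEE V V' g hHol hgV, hK1B B ι ι w 1 g (by rw [hgv]; rfl),
    (hK1M B ι 1 1).2.2.1, add_zero]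

end Pool.Agent.BND
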